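import Pool.Agent.H2.ExPair

namespace Pool.Agent.Results.MP_b5696c_al.AtLeastFour

open Pool.Agent.H2.ExPair

theorem result :
    (∀ (G : Type) [Group G] [Finite G] (A B : Set G),
      TwoSidedExact A B ↔ (A.ncard * B.ncard = Nat.card G ∧
        ∀ a ∈ A, ∀ a' ∈ A, ∀ b ∈ B, ∀ b' ∈ B, a ≠ a' → b ≠ b' →
          ¬ IsConj (a * a'⁻¹) (b * b'⁻¹))) ∧
    (∀ (G : Type) [Group G] [Finite G] [IsSimpleGroup G] (A B : Set G), TwoSidedExact A B →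
      (A.ncard ≤ 3 → IsCoset A) ∧ (B.ncard ≤ 3 → IsCoset B)) :=
  ⟨fun _ _ _ A B => criterion A B, fun _ _ _ _ _ _ h => ⟨small h, small (swap h)⟩⟩

end Pool.Agent.Results.MP_b5696c_al.AtLeastFour
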